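import Pool.Agent.Helper45.CF.GoalsC

/-! # Packet CF2-EMQ: the infinite product of spheres embeds in the Hilbert cube -/

set_option autoImplicit false

namespace Pool.Agent.Helper95.CF2.EMQ

open Pool.Agent.Helper45.CF

noncomputable section

/-- the three real coordinates. -/
def co (y : Sphere2) (k : Fin 3) : ℝ :=
  if k = 0 then y.1.1 else if k = 1 then y.1.2.re else y.1.2.im

theorem continuous_co (k : Fin 3) : Continuous fun y => co y k := by
  unfold co
  split_ifs <;> fun_prop

theorem co_abs (y : Sphere2) (k : Fin 3) : |co y k| ≤ 1 := by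
  have h := y.2
  have h1 : ‖y.1.2‖ ^ 2 = y.1.2.re ^ 2 + y.1.2.im ^ 2 := by
    rw [← Complex.normSq_eq_norm_sq, Complex.normSq_apply]
    ring
  rw [h1] at h
  rw [← sq_le_one_iff_abs_le_one]
  unfold co
  split_ifs <;> nlinarith [sq_nonneg y.1.1, sq_nonneg y.1.2.re, sq_nonneg y.1.2.im]

/-- the coordinates, moved to the unit interval. -/
def ce (y : Sphere2) (k : Fin 3) : unitInterval :=
  ⟨(1 + co y k) / 2, by
    have h := abs_le.mp (co_abs y k)
    constructor
    · linarith [h.1]
    · linarith [h.2]⟩

theorem continuous_ce (k : Fin 3) : Continuous fun y => ce y k :=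
  Continuous.subtype_mk ((continuous_const.add (continuous_co k)).div_const 2) _

theorem ce_inj {y y' : Sphere2} (h : ∀ k, ce y k = ce y' k) : y = y' := by
  have h' : ∀ k, co y k = co y' k := by
    intro k
    have := congrArg Subtype.val (h k)
    change (1 + co y k) / 2 = (1 + co y' k) / 2 at this
    linarith
  have h0 := h' 0
  have h1 := h' 1
  have h2 := h' 2
  simp only [co, if_true] at h0
  simp only [co, show (1 : Fin 3) ≠ 0 by decide, if_false, if_true] at h1
  simp only [co, show (2 : Fin 3) ≠ 0 by decide, show (2 : Fin 3) ≠ 1 by decide, if_false] at h2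
  exact Subtype.ext (Prod.ext h0 (Complex.ext h1 h2))

/-- a bijection. -/
def eq : ℕ ≃ ℕ × Fin 3 := (nonempty_equiv_of_countable (α := ℕ) (β := ℕ × Fin 3)).some

theorem t : S_EMQ := by
  refine ⟨⟨fun x n => ce (x (eq n).1) (eq n).2, ?_⟩, ?_⟩
  · refine continuous_pi fun n => ?_
    exact (continuous_ce (eq n).2).comp (continuous_apply (eq n).1)
  · intro x x' h
    funext i
    refine ce_inj fun k => ?_
    have := congrFun h (eq.symm (i, k))
    simpa using this

end

end Pool.Agent.Helper95.CF2.EMQ
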